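import Pool.Agent.H73.KG.Stmts
import Pool.Agent.H83.KL.EXT
import Pool.Agent.H83.KL.VAR
import Pool.Agent.H29.Sym.C
import Pool.Agent.H91.Sym.A1

/-!
# Project KG, module BAS: basic facts
-/

set_option autoImplicit false
set_option linter.unusedSectionVars false

open MeasureTheory Set Filter Topology Matrix
open scoped ContDiff

namespace Pool.Agent.H73.KG

open Pool.Agent.H84 Pool.Agent.H84.Sym Pool.Agent.H84.Sym.P2x Pool.Agent.H84.Sym.C29
open Pool.Agent.H19.KL

section

variable {E : Type} [NormedAddCommGroup E] [InnerProductSpace ℝ E]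
    [FiniteDimensional ℝ E] [MeasurableSpace E] [BorelSpace E]

theorem BAS_gpc {U : E → ℝ} {t C : ℝ} (hU : Pot U t C) : GPC (mu U) (1 / t) := by
  refine gpc_of_coer (stdOrthonormalBasis ℝ E) hU hU.pos fun u hu => ?_
  have h1 := bochner (stdOrthonormalBasis ℝ E) (q := fun _ => t) hU.smooth continuous_const
    hU.hess (hu.1.of_le (by norm_cast)) hu.2
  rw [integral_const_mul] at h1
  have h2 : 0 ≤ ∫ x, (∑ i, ‖fderiv ℝ (D (stdOrthonormalBasis ℝ E i) u) x‖ ^ 2) ∂(mu U) :=
    integral_nonneg fun x => Finset.sum_nonneg fun i _ => sq_nonneg _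
  exact (le_add_of_nonneg_left h2).trans h1

theorem BAS_pot {U : E → ℝ} {t t' C : ℝ} (hU : Pot U t C) (h0 : 0 < t') (h : t' ≤ t) :
    Pot U t' C :=
  ⟨hU.smooth, h0, fun x v => (mul_le_mul_of_nonneg_right h (sq_nonneg _)).trans (hU.hess x v),
    hU.grad⟩

theorem BAS_li (e : E) : GC (li e) := by
  refine ⟨continuous_const.inner continuous_id, ?_⟩
  refine Gr.of_le (Gr.mul (Gr.nrm (H := E)) (Gr.of_bdd (H := E) (F := fun _ => ‖e‖) (A := ‖e‖)
    fun _ => by simp)) fun x => ?_
  rw [abs_of_nonneg (mul_nonneg (norm_nonneg x) (norm_nonneg e)), mul_comm]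
  exact abs_real_inner_le_norm _ _

theorem BAS_cen {U : E → ℝ} {t C : ℝ} (hU : Pot U t C) (hp : IsProbabilityMeasure (mu U))
    {f g : E → ℝ} (hf : GC f) (hg : GC g) :
    cv U f g = ∫ x, (f x - ∫ z, f z ∂(mu U)) * (g x - ∫ z, g z ∂(mu U)) ∂(mu U) := by
  set a := ∫ z, f z ∂(mu U) with ha
  set c := ∫ z, g z ∂(mu U) with hc
  have h1 : Integrable f (mu U) := hf.integrable hU
  have h2 : Integrable g (mu U) := hg.integrable hU
  have h3 : Integrable (fun x => f x * g x) (mu U) := (hf.mul hg).integrable hU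
  have e : (fun x => (f x - a) * (g x - c)) = fun x => (f x * g x - c * f x) - (a * g x - a * c) := by
    funext x
    ring
  have i1 : Integrable (fun x => f x * g x - c * f x) (mu U) := h3.sub (h1.const_mul c)
  have i2 : Integrable (fun x => a * g x - a * c) (mu U) :=
    (h2.const_mul a).sub (integrable_const _)
  rw [e, integral_sub i1 i2,
    integral_sub h3 (h1.const_mul c), integral_sub (h2.const_mul a) (integrable_const _),
    integral_const_mul, integral_const_mul, integral_const]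
  simp only [probReal_univ, smul_eq_mul, one_mul]
  rw [← ha, ← hc]
  unfold cv
  rw [← ha, ← hc]
  ring

theorem BAS_nonneg {U : E → ℝ} {t C : ℝ} (hU : Pot U t C) (hp : IsProbabilityMeasure (mu U))
    {f : E → ℝ} (hf : GC f) : 0 ≤ cv U f f := by
  rw [BAS_cen hU hp hf hf]
  exact integral_nonneg fun x => mul_self_nonneg _

theorem BAS_symm (U f g : E → ℝ) : cv U f g = cv U g f := by
  unfold cv
  rw [mul_comm (∫ x, f x ∂(mu U))]
  simp only [mul_comm (f _)]

theorem BAS_add {U : E → ℝ} {t C : ℝ} (hU : Pot U t C)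
    {f g h : E → ℝ} (hf : GC f) (hg : GC g) (hh : GC h) :
    cv U (fun x => f x + g x) h = cv U f h + cv U g h := by
  unfold cv
  rw [integral_add (hf.integrable hU) (hg.integrable hU)]
  have e : (fun x => (f x + g x) * h x) = fun x => f x * h x + g x * h x := by
    funext x
    ring
  rw [e, integral_add ((hf.mul hh).integrable hU) ((hg.mul hh).integrable hU)]
  ring

theorem BAS_smul (U : E → ℝ) (c : ℝ) (f h : E → ℝ) :
    cv U (fun x => c * f x) h = c * cv U f h := by
  unfold cv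
  have e : (fun x => (c * f x) * h x) = fun x => c * (f x * h x) := by
    funext x
    ring
  rw [e, integral_const_mul, integral_const_mul]
  ring

theorem BAS_cs {U : E → ℝ} {t C : ℝ} (hU : Pot U t C) (hp : IsProbabilityMeasure (mu U))
    {f g : E → ℝ} (hf : GC f) (hg : GC g) : cv U f g ^ 2 ≤ cv U f f * cv U g g := by
  have key : ∀ s : ℝ, 0 ≤ cv U g g * (s * s) + 2 * cv U f g * s + cv U f f := by
    intro s
    have hsg : GC (fun x => s * g x) := (GC.const s).mul hg
    have h1 := BAS_nonneg hU hp (hf.add hsg)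
    rw [BAS_add hU hf hsg (hf.add hsg), BAS_symm U f, BAS_add hU hf hsg hf,
      BAS_symm U (fun x => s * g x) (fun x => f x + s * g x), BAS_add hU hf hsg hsg,
      BAS_smul, BAS_symm U f (fun x => s * g x), BAS_smul, BAS_smul,
      BAS_symm U g (fun x => s * g x), BAS_smul, BAS_symm U g f] at h1
    nlinarith [h1]
  have h2 := discrim_le_zero key
  unfold discrim at h2
  nlinarith [h2]

variable {ι : Type} [Fintype ι]

theorem BAS_quad {U : E → ℝ} {t C : ℝ} (hU : Pot U t C) (b : OrthonormalBasis ι ℝ E)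
    (x : ι → ℝ) : x ⬝ᵥ (cm b U *ᵥ x) = cv U (li (∑ i, x i • b i)) (li (∑ i, x i • b i)) := by
  classical
  have hl : ∀ s : Finset ι, li (∑ i ∈ s, x i • b i) = fun z => ∑ i ∈ s, x i * li (b i) z := by
    intro s
    funext z
    unfold li
    rw [sum_inner]
    exact Finset.sum_congr rfl fun i _ => by rw [real_inner_smul_left]
  have hG : ∀ s : Finset ι, GC (fun z => ∑ i ∈ s, x i * li (b i) z) := fun s =>
    GC.sum fun i => (GC.const (x i)).mul (BAS_li (b i))
  have hsum : ∀ (s : Finset ι) (h : E → ℝ), GC h →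
      cv U (fun z => ∑ i ∈ s, x i * li (b i) z) h = ∑ i ∈ s, x i * cv U (li (b i)) h := by
    intro s h hh
    induction s using Finset.induction_on with
    | empty =>
      simp only [Finset.sum_empty]
      unfold cv
      simp
    | insert a s ha ih =>
      simp only [Finset.sum_insert ha]
      rw [BAS_add hU ((GC.const (x a)).mul (BAS_li (b a))) (hG s) hh, BAS_smul, ih]
  rw [hl, hsum _ _ (hG _)]
  simp only [dotProduct, mulVec]
  refine Finset.sum_congr rfl fun i _ => ?_
  congr 1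
  rw [BAS_symm, hsum _ _ (BAS_li _)]
  refine Finset.sum_congr rfl fun j _ => ?_
  rw [BAS_symm U (li (b j))]
  simp only [cm, Matrix.of_apply]
  ring

theorem BAS_norm (b : OrthonormalBasis ι ℝ E) (x : ι → ℝ) :
    ‖∑ i, x i • b i‖ ^ 2 = x ⬝ᵥ x := by
  classical
  rw [← real_inner_self_eq_norm_sq, sum_inner]
  simp only [dotProduct]
  refine Finset.sum_congr rfl fun i _ => ?_
  rw [real_inner_smul_left, inner_sum]
  congr 1
  rw [Finset.sum_eq_single i]
  · rw [real_inner_smul_right, real_inner_self_eq_norm_sq, b.norm_eq_one]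
    ring
  · intro j _ hj
    rw [real_inner_smul_right, b.inner_eq_zero hj.symm, mul_zero]
  · intro h
    exact absurd (Finset.mem_univ i) h

theorem BAS_herm (b : OrthonormalBasis ι ℝ E) (U : E → ℝ) : (cm b U).IsHermitian := by
  ext i j
  simp only [cm, Matrix.conjTranspose_apply, Matrix.of_apply, star_trivial]
  exact BAS_symm _ _ _

theorem BAS_cq {U : E → ℝ} {t C : ℝ} (hU : Pot U t C) [DecidableEq ι]
    (b : OrthonormalBasis ι ℝ E) (c : ℝ) (x : ι → ℝ) :
    x ⬝ᵥ ((c • (1 : Matrix ι ι ℝ) - cm b U) *ᵥ x) = c * ‖∑ i, x i • b i‖ ^ 2 -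
      cv U (li (∑ i, x i • b i)) (li (∑ i, x i • b i)) := by
  rw [Matrix.sub_mulVec, dotProduct_sub, BAS_quad hU, BAS_norm, Matrix.smul_mulVec,
    Matrix.one_mulVec, dotProduct_smul, smul_eq_mul]

end

theorem bas_thm (E : Type) [NormedAddCommGroup E] [InnerProductSpace ℝ E]
    [FiniteDimensional ℝ E] [MeasurableSpace E] [BorelSpace E] : BASStmt E := by
  refine ⟨?_, ?_, ?_, ?_, ?_, ?_, ?_⟩
  · rintro U t t' ⟨⟨C, hU⟩, hp⟩ h0 h
    exact ⟨⟨C, BAS_pot hU h0 h⟩, hp⟩
  · rintro U t ⟨⟨C, hU⟩, hp⟩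
    exact BAS_gpc hU
  · rintro U t ⟨⟨C, hU⟩, hp⟩ f hf hg hd L hL
    have h := ext_thm E U t C L hU hp hL f hf hg hd
    unfold cv
    rw [← pow_two]
    simpa only [pow_two] using h
  · rintro U t ⟨⟨C, hU⟩, hp⟩ f g hf hg
    exact ⟨BAS_cs hU hp hf hg, BAS_nonneg hU hp hf, BAS_symm _ _ _, BAS_cen hU hp hf hg⟩
  · rintro U t ⟨⟨C, hU⟩, hp⟩ w
    have h := var_thm E U t C hU hp w
    unfold cv li
    have e : ∀ x : E, (inner ℝ w x : ℝ) = inner ℝ x w := fun x => real_inner_comm _ _
    simp only [e]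
    rw [← pow_two]
    simp only [← pow_two]
    rw [one_div, inv_mul_eq_div]
    exact h
  · rintro U t ⟨⟨C, hU⟩, hp⟩ ι _ _ b
    refine ⟨Matrix.PosSemidef.of_dotProduct_mulVec_nonneg (BAS_herm b U) fun x => ?_,
      fun c hc => Matrix.PosSemidef.of_dotProduct_mulVec_nonneg ?_ fun x => ?_⟩
    · rw [star_trivial, BAS_quad hU]
      exact BAS_nonneg hU hp (BAS_li _)
    · refine Matrix.IsHermitian.sub ?_ (BAS_herm b U)
      ext i j
      simp [Matrix.one_apply, eq_comm]
    · rw [star_trivial, BAS_cq hU]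
      exact sub_nonneg.2 (hc _)
  · rintro U t ⟨⟨C, hU⟩, hp⟩ ι _ _ b c h w
    have h1 := h.dotProduct_mulVec_nonneg (fun i => inner ℝ (b i) w)
    rw [star_trivial, BAS_cq hU] at h1
    have h2 : (∑ i, (inner ℝ (b i) w : ℝ) • b i) = w := by
      exact b.sum_repr' w
    rw [h2] at h1
    linarith

end Pool.Agent.H73.KG
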