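import Pool.Agent.H73.KG.Stmts2
import Pool.Agent.H33.KG.BAS

/-!
# Project KG, module T1P: third moments against a matrix
-/

set_option autoImplicit false
set_option linter.unusedSectionVars false

open MeasureTheory Set Filter Topology
open scoped ContDiff

namespace Pool.Agent.H73.KG

open Pool.Agent.H84 Pool.Agent.H84.Sym Pool.Agent.H84.Sym.P2x Pool.Agent.H84.Sym.C29
open Pool.Agent.H19.KL

section

variable {E : Type} [NormedAddCommGroup E] [InnerProductSpace ℝ E]
    [FiniteDimensional ℝ E] [MeasurableSpace E] [BorelSpace E]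
variable {ι : Type} [Fintype ι]

theorem T1P_li (e x : E) : HasFDerivAt (li e) (innerSL ℝ e) x := (innerSL ℝ e).hasFDerivAt

theorem T1P_q (b : OrthonormalBasis ι ℝ E) (m c : ι → ℝ) :
    ContDiff ℝ 1 (fun x => ∑ i, m i * (li (b i) x - c i) ^ 2) ∧
    GC (fun x => ∑ i, m i * (li (b i) x - c i) ^ 2) ∧
    ∀ i x, D (b i) (fun x => ∑ i, m i * (li (b i) x - c i) ^ 2) x =
      2 * m i * (li (b i) x - c i) := by
  classical
  refine ⟨?_, ?_, ?_⟩
  · refine ContDiff.sum fun i _ => contDiff_const.mul ?_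
    have h1 : ContDiff ℝ 1 (li (b i)) := (innerSL ℝ (b i)).contDiff
    exact (h1.sub contDiff_const).pow 2
  · exact GC.sum fun i => (GC.const _).mul ((BAS_li _).sub (GC.const _)).sq
  · intro i x
    have h1 : ∀ j, HasFDerivAt (fun x => m j * (li (b j) x - c j) ^ 2)
        (m j • ((2 * (li (b j) x - c j)) • innerSL ℝ (b j))) x := by
      intro j
      have h2 := (((T1P_li (b j) x).sub_const (c j)).pow 2).const_mul (m j)
      refine h2.congr_fderiv ?_
      ext v
      simp
    have h3 := (HasFDerivAt.fun_sum fun j (_ : j ∈ Finset.univ) => h1 j).fderiv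
    unfold D
    rw [h3]
    simp only [sum_apply, smul_apply, smul_eq_mul, innerSL_apply_apply]
    rw [Finset.sum_eq_single i]
    · rw [real_inner_self_eq_norm_sq, b.norm_eq_one]
      ring
    · intro j _ hj
      rw [b.inner_eq_zero hj]
      ring
    · intro h
      exact absurd (Finset.mem_univ i) h

theorem T1P_LO (b : OrthonormalBasis ι ℝ E) {U u : E → ℝ} {t C : ℝ} (hU : Pot U t C)
    (hu : Tst u) : GC (LO b U u) := by
  have hu2 : ContDiff ℝ 2 u := hu.1.of_le (by norm_cast)
  have hU1 : ContDiff ℝ 1 U := hU.smooth.of_le (by norm_num)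
  have hDu : ∀ i, ContDiff ℝ 1 (D (b i) u) := fun i => contDiff_D hu2 (by norm_num) (b i)
  have hDDu : ∀ i, Continuous (D (b i) (D (b i) u)) := fun i =>
    (contDiff_D (m := 0) (hDu i) (by norm_num) (b i)).continuous
  have hDU : ∀ i, Continuous (D (b i) U) := fun i =>
    (contDiff_D (m := 0) hU1 (by norm_num) (b i)).continuous
  have hc : ∀ i, HasCompactSupport (D (b i) u) := fun i => hcs_D hu.2 (b i)
  have key : ∀ F : E → ℝ, Continuous F → HasCompactSupport F → GC F := by
    intro F hF hFc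
    obtain ⟨A, hA⟩ := hF.bounded_above_of_compact_support hFc
    exact ⟨hF, Gr.of_bdd fun x => by simpa using hA x⟩
  unfold LO
  refine GC.sub (GC.sum fun i => key _ (hDDu i) (hcs_D (hc i) _)) (GC.sum fun i => key _ ?_ ?_)
  · exact (hDU i).mul (hDu i).continuous
  · exact (hc i).mul_left

theorem T1P_core {C : ℝ} (hK : KBD C) (hB : BASStmt E) (U : E → ℝ) (t : ℝ) (hP : PP U t)
    (ht : t ≤ 1) (h5 : CovLe U 5) (b : OrthonormalBasis ι ℝ E) (m : ι → ℝ) (β : ℝ)
    (hm : ∀ i, |m i| ≤ β) (θ : E) (hθ : ‖θ‖ ≤ 1) :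
    2 * ∑ i, m i * t3 U θ (b i) (b i) ≤ 5 + C * β ^ 2 * Fintype.card ι := by
  classical
  obtain ⟨⟨C', hU⟩, hp⟩ := id hP
  set q : E → ℝ := fun x => ∑ i, m i * (li (b i) x - mn U (b i)) ^ 2 with hq
  obtain ⟨hq1, hqG, hqD⟩ := T1P_q b m (fun i => mn U (b i))
  set c : ℝ := mn U θ with hc
  set h : E → ℝ := fun x => li θ x - c with hh
  have hhG : GC h := (BAS_li θ).sub (GC.const c)
  have hc1 : ContDiff ℝ 1 (li θ) := (innerSL ℝ θ).contDiff
  -- the third moments
  have hT : ∑ i, m i * t3 U θ (b i) (b i) = ∫ x, h x * q x ∂(mu U) := by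
    have e : (fun x => h x * q x) = fun x => ∑ i, m i * ((li θ x - mn U θ) *
        (li (b i) x - mn U (b i)) * (li (b i) x - mn U (b i))) := by
      funext x
      simp only [hh, hq, Finset.mul_sum]
      exact Finset.sum_congr rfl fun i _ => by ring
    rw [e, integral_finsetSum]
    · refine Finset.sum_congr rfl fun i _ => ?_
      rw [integral_const_mul]
      rfl
    · intro i _
      exact (((hhG.mul ((BAS_li (b i)).sub (GC.const _))).mul
        ((BAS_li (b i)).sub (GC.const _))).integrable hU).const_mul _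
  set Q2 : ℝ := ∫ x, q x ^ 2 ∂(mu U) with hQ2
  have hQ20 : 0 ≤ Q2 := integral_nonneg fun x => sq_nonneg _
  have hH2 : ∫ x, h x ^ 2 ∂(mu U) ≤ 5 := by
    have h1 := BAS_cen hU hp (BAS_li θ) (BAS_li θ)
    have h2 := h5 θ
    have h3 : ∫ x, h x ^ 2 ∂(mu U) = cv U (li θ) (li θ) := by
      rw [h1]
      simp only [hh, pow_two]
      rfl
    rw [h3]
    have h4 : ‖θ‖ ^ 2 ≤ 1 := by
      have := norm_nonneg θ
      nlinarith
    linarith
  -- approximation
  have key : ∀ η : ℝ, 0 < η → η ≤ 1 → 2 * ∫ x, h x * q x ∂(mu U) ≤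
      5 + C * β ^ 2 * Fintype.card ι + η * (Q2 + 8) := by
    intro η hη hη1
    obtain ⟨u, hu, hA⟩ := dense_range_gr b hU hc1 (BAS_li θ).2 (c := c)
      (by simp only [probReal_univ, mul_one, hc]; rfl) (ε := η ^ 2) (by positivity)
    set A : E → ℝ := fun x => LO b U u x + h x with hAdef
    have hA' : ∫ x, A x ^ 2 ∂(mu U) ≤ η ^ 2 := hA
    have hLG := T1P_LO b hU hu
    have hAG : GC A := hLG.add hhG
    have iA2 : Integrable (fun x => A x ^ 2) (mu U) := hAG.sq.integrable hU
    have iq2 : Integrable (fun x => q x ^ 2) (mu U) := hqG.sq.integrable hU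
    have ih2 : Integrable (fun x => h x ^ 2) (mu U) := hhG.sq.integrable hU
    -- (a)
    have ha : ∫ x, A x * q x ∂(mu U) ≤ η / 2 * (Q2 + 1) := by
      have h1 : ∫ x, A x * q x ∂(mu U) ≤ ∫ x, (η / 2 * q x ^ 2 + 1 / (2 * η) * A x ^ 2) ∂(mu U) := by
        refine integral_mono ((hAG.mul hqG).integrable hU)
          ((iq2.const_mul _).add (iA2.const_mul _)) fun x => ?_
        have h2 : 0 ≤ (η * q x - A x) ^ 2 / (2 * η) := by positivity
        have h3 : (η * q x - A x) ^ 2 / (2 * η) = η / 2 * q x ^ 2 - A x * q x +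
            1 / (2 * η) * A x ^ 2 := by
          field_simp
          ring
        show A x * q x ≤ η / 2 * q x ^ 2 + 1 / (2 * η) * A x ^ 2
        linarith
      rw [integral_add (iq2.const_mul _) (iA2.const_mul _), integral_const_mul,
        integral_const_mul] at h1
      have h4 : 1 / (2 * η) * ∫ x, A x ^ 2 ∂(mu U) ≤ 1 / (2 * η) * η ^ 2 :=
        mul_le_mul_of_nonneg_left hA' (by positivity)
      have h5 : 1 / (2 * η) * η ^ 2 = η / 2 := by
        field_simp
      rw [h5] at h4
      linarith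
    -- (b)
    have hb : ∫ x, LO b U u x * q x ∂(mu U) =
        -(2 * ∑ i, m i * cv U (li (b i)) (D (b i) u)) := by
      rw [green b (hU.smooth.of_le (by norm_num)) (hu.1.of_le (by norm_cast)) hq1 (Or.inl hu.2)]
      congr 1
      have hDG : ∀ i, GC (D (b i) u) := by
        intro i
        have hu1 : ContDiff ℝ 1 u := hu.1.of_le (by norm_cast)
        have h1 : Continuous (D (b i) u) :=
          (contDiff_D (m := 0) hu1 (by norm_num) (b i)).continuous
        obtain ⟨A, hA⟩ := h1.bounded_above_of_compact_support (hcs_D hu.2 (b i))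
        exact ⟨h1, Gr.of_bdd fun x => by simpa using hA x⟩
      have e : (fun x => ∑ i, D (b i) u x * D (b i) q x) = fun x => ∑ i, (2 * m i) *
          (li (b i) x * D (b i) u x - mn U (b i) * D (b i) u x) := by
        funext x
        refine Finset.sum_congr rfl fun i _ => ?_
        rw [hqD i x]
        ring
      have iD : ∀ i, Integrable (fun x => li (b i) x * D (b i) u x) (mu U) := fun i =>
        ((BAS_li _).mul (hDG i)).integrable hU
      have iD2 : ∀ i, Integrable (fun x => mn U (b i) * D (b i) u x) (mu U) := fun i =>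
        ((hDG i).integrable hU).const_mul _
      have iS : ∀ i, Integrable (fun x => (2 * m i) *
          (li (b i) x * D (b i) u x - mn U (b i) * D (b i) u x)) (mu U) := fun i =>
        ((iD i).sub (iD2 i)).const_mul _
      rw [e, integral_finsetSum _ fun i _ => iS i, Finset.mul_sum]
      refine Finset.sum_congr rfl fun i _ => ?_
      rw [integral_const_mul, integral_sub (iD i) (iD2 i), integral_const_mul]
      unfold cv mn
      ring
    -- (c)
    have hcc : 4 * (∑ i, m i * cv U (li (b i)) (D (b i) u)) ≤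
        (∫ x, (LO b U u x) ^ 2 ∂(mu U)) + C * β ^ 2 * Fintype.card ι := by
      have h1 := hK E U t hP ht ι b (cm b U) (BAS_herm b U)
        ((hB.2.2.2.2.2.1 U t hP ι b).2 5 h5) m β hm u hu
      have h2 := bochner b (q := fun _ => 0) hU.smooth continuous_const
        (fun x v => by
          have := hU.hess x v
          have h3 := mul_nonneg hU.pos.le (sq_nonneg ‖v‖)
          linarith) (hu.1.of_le (by norm_cast)) hu.2
      simp only [zero_mul, integral_zero, add_zero] at h2
      simp only [sub_self, ne_eq, OfNat.ofNat_ne_zero, not_false_eq_true, zero_pow,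
        Finset.sum_const_zero, zero_div, add_zero] at h1
      linarith
    -- (d)
    have hd : ∫ x, (LO b U u x) ^ 2 ∂(mu U) ≤ 5 + 7 * η := by
      have e : ∀ x, (LO b U u x) ^ 2 ≤ (1 + 1 / η) * A x ^ 2 + (1 + η) * h x ^ 2 := by
        intro x
        have h1 : LO b U u x = A x - h x := by simp only [hAdef]; ring
        rw [h1]
        have h2 : 0 ≤ (A x + η * h x) ^ 2 / η := by positivity
        have h3 : (A x + η * h x) ^ 2 / η = 1 / η * A x ^ 2 + 2 * (A x * h x) + η * h x ^ 2 := by
          field_simp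
          ring
        nlinarith
      have h1 : ∫ x, (LO b U u x) ^ 2 ∂(mu U) ≤
          ∫ x, ((1 + 1 / η) * A x ^ 2 + (1 + η) * h x ^ 2) ∂(mu U) :=
        integral_mono (hLG.sq.integrable hU) ((iA2.const_mul _).add (ih2.const_mul _)) e
      rw [integral_add (iA2.const_mul _) (ih2.const_mul _), integral_const_mul,
        integral_const_mul] at h1
      have h2 : (1 + 1 / η) * ∫ x, A x ^ 2 ∂(mu U) ≤ (1 + 1 / η) * η ^ 2 :=
        mul_le_mul_of_nonneg_left hA' (by positivity)
      have h3 : (1 + 1 / η) * η ^ 2 = η ^ 2 + η := by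
        field_simp
      have h4 : (1 + η) * ∫ x, h x ^ 2 ∂(mu U) ≤ (1 + η) * 5 :=
        mul_le_mul_of_nonneg_left hH2 (by positivity)
      nlinarith
    -- end
    have hsum : ∫ x, h x * q x ∂(mu U) = (∫ x, A x * q x ∂(mu U)) -
        ∫ x, LO b U u x * q x ∂(mu U) := by
      rw [← integral_sub ((hAG.mul hqG).integrable hU) ((hLG.mul hqG).integrable hU)]
      congr 1
      funext x
      simp only [hAdef]
      ring
    rw [hsum, hb]
    nlinarith
  rw [hT]
  refine le_of_forall_pos_le_add fun δ hδ => ?_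
  have hKp : 0 < Q2 + 8 := by linarith
  have h1 := key (min 1 (δ / (Q2 + 8))) (lt_min one_pos (div_pos hδ hKp)) (min_le_left _ _)
  have h2 : min 1 (δ / (Q2 + 8)) * (Q2 + 8) ≤ δ := by
    calc min 1 (δ / (Q2 + 8)) * (Q2 + 8) ≤ δ / (Q2 + 8) * (Q2 + 8) :=
          mul_le_mul_of_nonneg_right (min_le_right _ _) hKp.le
      _ = δ := by field_simp
  linarith

end

theorem t1p_thm (hB : ∀ (E : Type) [NormedAddCommGroup E] [InnerProductSpace ℝ E]
    [FiniteDimensional ℝ E] [MeasurableSpace E] [BorelSpace E], BASStmt E) (hK : KFBStmt) :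
    T1PStmt := by
  obtain ⟨C, hC1, hK⟩ := hK
  refine ⟨5 + C, by linarith, ?_⟩
  intro E _ _ _ _ _ U t hP h5 ι _ b m β hm hβ θ hθ
  -- reduction to `t ≤ 1`
  have hP' : PP U (min t 1) := (hB E).1 U t (min t 1) hP (lt_min hP.1.choose_spec.pos one_pos)
    (min_le_left _ _)
  have core : ∀ (m : ι → ℝ) (β : ℝ), (∀ i, |m i| ≤ β) →
      2 * ∑ i, m i * t3 U θ (b i) (b i) ≤ 5 + C * β ^ 2 * Fintype.card ι := fun m β hm =>
    T1P_core hK (hB E) U _ hP' (min_le_right _ _) h5 b m β hm θ hθ
  set T : ℝ := ∑ i, m i * t3 U θ (b i) (b i) with hT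
  rcases isEmpty_or_nonempty ι with hι | hι
  · rw [hT]
    simp
  rcases hβ.eq_or_lt with h0 | h0
  · have hz : ∀ i, m i = 0 := fun i => abs_eq_zero.1 (le_antisymm (by rw [h0]; exact hm i)
      (abs_nonneg _))
    rw [hT]
    simp only [hz, zero_mul, Finset.sum_const_zero, abs_zero]
    positivity
  · set k : ℝ := (Fintype.card ι : ℝ) with hk
    have hk1 : 0 < k := by
      rw [hk]
      exact_mod_cast Fintype.card_pos
    set w : ℝ := β * Real.sqrt k with hw
    have hwp : 0 < w := mul_pos h0 (Real.sqrt_pos.2 hk1)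
    have hw2 : w ^ 2 = β ^ 2 * k := by rw [hw, mul_pow, Real.sq_sqrt hk1.le]
    have scal : ∀ ε : ℝ, |ε| = 1 → 2 * (ε * T / w) ≤ 5 + C := by
      intro ε hε
      have h1 := core (fun i => ε / w * m i) (β / w) (fun i => by
        rw [abs_mul, abs_div, hε, abs_of_pos hwp, one_div, div_eq_inv_mul]
        exact mul_le_mul_of_nonneg_left (hm i) (inv_nonneg.2 hwp.le))
      have h2 : ∑ i, ε / w * m i * t3 U θ (b i) (b i) = ε * T / w := by
        rw [hT, Finset.mul_sum, Finset.sum_div]
        exact Finset.sum_congr rfl fun i _ => by ring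
      have h3 : C * (β / w) ^ 2 * k = C := by
        rw [div_pow, hw2]
        field_simp
      rw [h2, h3] at h1
      exact h1
    have h1 := scal 1 (by simp)
    have h2 := scal (-1) (by simp)
    have h3 : (5 + C) * β * Real.sqrt k = (5 + C) * w := by rw [hw]; ring
    rw [h3, abs_le]
    have e1 : 1 * T / w * w = T := by field_simp
    have e2 : -1 * T / w * w = -T := by field_simp
    constructor
    · have := mul_le_mul_of_nonneg_right h2 hwp.le
      nlinarith
    · have := mul_le_mul_of_nonneg_right h1 hwp.le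
      nlinarith

end Pool.Agent.H73.KG
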