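import Pool.Agent.H33.KG.BAS

/-!
# Project KG, module INV: independence of the basis
-/

set_option autoImplicit false
set_option linter.unusedSectionVars false

open MeasureTheory Set Filter Topology Matrix
open scoped ContDiff

namespace Pool.Agent.H73.KG

open Pool.Agent.H84 Pool.Agent.H84.Sym Pool.Agent.H84.Sym.P2x Pool.Agent.H84.Sym.C29
open Pool.Agent.H19.KL

section

variable {E : Type} [NormedAddCommGroup E] [InnerProductSpace ℝ E]
    [FiniteDimensional ℝ E] [MeasurableSpace E] [BorelSpace E]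
variable {ι : Type} [Fintype ι]

theorem INV_tr (B : E →ₗ[ℝ] E →ₗ[ℝ] ℝ) (b c : OrthonormalBasis ι ℝ E) :
    ∑ i, B (b i) (b i) = ∑ j, B (c j) (c j) := by
  classical
  have h1 : ∀ i, B (b i) (b i) = ∑ j, ∑ k, ((inner ℝ (c j) (b i) : ℝ) * inner ℝ (b i) (c k)) *
      B (c j) (c k) := by
    intro i
    have e : b i = ∑ j, (inner ℝ (c j) (b i) : ℝ) • c j := (c.sum_repr' (b i)).symm
    have e2 : B (b i) (b i) = B (∑ j, (inner ℝ (c j) (b i) : ℝ) • c j)
        (∑ k, (inner ℝ (c k) (b i) : ℝ) • c k) := by rw [← e]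
    rw [e2]
    simp only [map_sum, LinearMap.sum_apply, map_smul, LinearMap.smul_apply, smul_eq_mul,
      Finset.mul_sum]
    rw [Finset.sum_comm]
    refine Finset.sum_congr rfl fun j _ => Finset.sum_congr rfl fun k _ => ?_
    rw [real_inner_comm (b i) (c k)]
    ring
  simp only [h1]
  rw [Finset.sum_comm]
  refine Finset.sum_congr rfl fun j _ => ?_
  rw [Finset.sum_comm]
  have h2 : ∀ k, ∑ i, ((inner ℝ (c j) (b i) : ℝ) * inner ℝ (b i) (c k)) * B (c j) (c k) =
      (inner ℝ (c j) (c k) : ℝ) * B (c j) (c k) := by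
    intro k
    rw [← Finset.sum_mul, b.sum_inner_mul_inner]
  simp only [h2]
  rw [Finset.sum_eq_single j]
  · rw [real_inner_self_eq_norm_sq, c.norm_eq_one]
    ring
  · intro k _ hk
    rw [c.inner_eq_zero hk.symm, zero_mul]
  · intro h
    exact absurd (Finset.mem_univ j) h

theorem INV_pot {U : E → ℝ} {t C : ℝ} (hU : Pot U t C) {s : ℝ} (hs : 0 ≤ s) (θ : E) :
    ∃ C', Pot (tp U s θ) (t + s) C' := by
  have h1 := (pot_add_quad hU hs (0 : E)).1
  have h2 := (pot_add_aff h1 (-θ) 0).1
  have e : (fun x => pt U s 0 x + (inner ℝ (-θ) x + 0)) = tp U s θ := by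
    funext x
    unfold pt tp
    rw [inner_neg_left, sub_zero]
    ring
  rw [e] at h2
  exact ⟨_, h2⟩

theorem INV_int {U : E → ℝ} {t C : ℝ} (hU : Pot U t C) {s : ℝ} (hs : 0 ≤ s) (θ : E) {F : E → ℝ}
    (hF : GC F) : Integrable (fun x => F x * Real.exp (-tp U s θ x)) := by
  obtain ⟨C', hp⟩ := INV_pot hU hs θ
  have h1 := hF.integrable hp
  unfold mu at h1
  have hm : Measurable (fun x => ENNReal.ofReal (Real.exp (-tp U s θ x))) :=
    (hp.smooth.continuous.neg.measurable.exp).ennreal_ofReal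
  rw [integrable_withDensity_iff_integrable_smul' hm (by simp)] at h1
  refine h1.congr (Filter.Eventually.of_forall fun x => ?_)
  simp only [smul_eq_mul]
  rw [ENNReal.toReal_ofReal (Real.exp_pos _).le, mul_comm]

/-- the posterior mean of a linear functional as a linear map -/
noncomputable def INV_pm {U : E → ℝ} {t C : ℝ} (hU : Pot U t C) {s : ℝ} (hs : 0 ≤ s) (θ : E) :
    E →ₗ[ℝ] ℝ where
  toFun e := pm U s θ (li e)
  map_add' u v := by
    unfold pm ZF
    rw [← add_div, ← integral_add (INV_int hU hs θ (BAS_li u)) (INV_int hU hs θ (BAS_li v))]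
    congr 2
    funext x
    unfold li
    rw [inner_add_left]
    ring
  map_smul' a v := by
    unfold pm ZF
    rw [RingHom.id_apply, smul_eq_mul, ← mul_div_assoc, ← integral_const_mul]
    congr 2
    funext x
    unfold li
    rw [real_inner_smul_left]
    ring

theorem INV_pm_apply {U : E → ℝ} {t C : ℝ} (hU : Pot U t C) {s : ℝ} (hs : 0 ≤ s) (θ e : E) :
    INV_pm hU hs θ e = pm U s θ (li e) := rfl

theorem INV_cd {G : ℝ → E → ℝ} (hG : RG G) {s : ℝ} (hs : 0 < s) : ContDiff ℝ 2 (G s) := by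
  have h1 : ContDiffOn ℝ 2 (fun θ : E => Function.uncurry G (s, θ)) univ := by
    refine hG.smooth.comp (contDiff_prodMk_right s).contDiffOn fun θ _ => ?_
    exact ⟨hs, mem_univ _⟩
  exact contDiffOn_univ.1 h1

theorem INV_DD {g : E → ℝ} (hg : ContDiff ℝ 2 g) (u v θ : E) :
    D u (D v g) θ = fderiv ℝ (fderiv ℝ g) θ u v := by
  have hd : Differentiable ℝ (fderiv ℝ g) :=
    (hg.fderiv_right (m := 1) (by norm_num)).differentiable (by norm_num)
  have h1 : HasFDerivAt (fun x => fderiv ℝ g x v) ((fderiv ℝ (fderiv ℝ g) θ).flip v) θ := by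
    have h2 := (hd θ).hasFDerivAt.clm_apply (hasFDerivAt_const v θ)
    refine h2.congr_fderiv ?_
    ext w
    simp
  unfold D
  rw [h1.fderiv]
  rfl

/-- the covariance as a bilinear form -/
noncomputable def INV_cv {U : E → ℝ} {t C : ℝ} (hU : Pot U t C) : E →ₗ[ℝ] E →ₗ[ℝ] ℝ :=
  LinearMap.mk₂ ℝ (fun u v => cv U (li u) (li v))
    (fun u v w => by
      have e : li (u + v) = fun x => li u x + li v x := by
        funext x
        exact inner_add_left _ _ _
      rw [e, BAS_add hU (BAS_li u) (BAS_li v) (BAS_li w)])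
    (fun a u w => by
      have e : li (a • u) = fun x => a * li u x := by
        funext x
        exact real_inner_smul_left _ _ _
      rw [e, BAS_smul, smul_eq_mul])
    (fun w u v => by
      have e : li (u + v) = fun x => li u x + li v x := by
        funext x
        exact inner_add_left _ _ _
      rw [BAS_symm, e, BAS_add hU (BAS_li u) (BAS_li v) (BAS_li w), BAS_symm U (li u),
        BAS_symm U (li v)])
    (fun a w u => by
      have e : li (a • u) = fun x => a * li u x := by
        funext x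
        exact real_inner_smul_left _ _ _
      rw [BAS_symm, e, BAS_smul, smul_eq_mul, BAS_symm])

theorem INV_cv_apply {U : E → ℝ} {t C : ℝ} (hU : Pot U t C) (u v : E) :
    INV_cv hU u v = cv U (li u) (li v) := rfl

theorem INV_FP [DecidableEq ι] (p : ℕ) (A : Matrix ι ι ℝ) (u : (Matrix ι ι ℝ)ˣ) :
    FP p ((u : Matrix ι ι ℝ) * A * ((u⁻¹ : (Matrix ι ι ℝ)ˣ) : Matrix ι ι ℝ)) = FP p A := by
  set W : Matrix ι ι ℝ := (u : Matrix ι ι ℝ) with hW
  set W' : Matrix ι ι ℝ := ((u⁻¹ : (Matrix ι ι ℝ)ˣ) : Matrix ι ι ℝ) with hW'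
  have h1 : W' * W = 1 := u.inv_mul
  have h2 : W * W' = 1 := u.mul_inv
  have e1 : 1 + W * A * W' = W * (1 + A) * W' := by
    rw [mul_add, add_mul, mul_one, h2]
  have e2 : (W * (1 + A) * W')⁻¹ = W * (1 + A)⁻¹ * W' := by
    rw [Matrix.mul_inv_rev, Matrix.mul_inv_rev, Matrix.inv_eq_right_inv h1,
      Matrix.inv_eq_right_inv h2, mul_assoc]
  have e3 : W * A * W' * (W * (1 + A)⁻¹ * W') = W * (A * (1 + A)⁻¹) * W' := by
    calc W * A * W' * (W * (1 + A)⁻¹ * W') = W * A * (W' * W) * (1 + A)⁻¹ * W' := by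
          simp only [mul_assoc]
      _ = _ := by rw [h1, mul_one]; simp only [mul_assoc]
  unfold FP
  rw [e1, e2, e3, Units.conj_pow, ← hW, ← hW']
  have e4 : W * A * W' * (W * (A * (1 + A)⁻¹) ^ p * W') = W * (A * (A * (1 + A)⁻¹) ^ p) * W' := by
    calc W * A * W' * (W * (A * (1 + A)⁻¹) ^ p * W') =
        W * A * (W' * W) * (A * (1 + A)⁻¹) ^ p * W' := by simp only [mul_assoc]
      _ = _ := by rw [h1, mul_one]; simp only [mul_assoc]
  rw [e4, Matrix.trace_mul_cycle, h1, one_mul]

end

/-- the module INV, part (1) for potentials `PP U t` -/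
def INVStmt' (E : Type) [NormedAddCommGroup E] [InnerProductSpace ℝ E]
    [FiniteDimensional ℝ E] [MeasurableSpace E] [BorelSpace E] : Prop :=
  (∀ (U : E → ℝ) (t : ℝ), PP U t → ∀ (G : ℝ → E → ℝ), RG G → ∀ (ι : Type) [Fintype ι]
    (b c : OrthonormalBasis ι ℝ E) (s : ℝ) (θ : E), 0 < s → gen b U G s θ = gen c U G s θ) ∧
  (∀ (U : E → ℝ) (t : ℝ), PP U t → ∀ (ι : Type) [Fintype ι] [DecidableEq ι]
    (b c : OrthonormalBasis ι ℝ E) (p : ℕ), FP p (cm b U) = FP p (cm c U))

theorem inv_thm' (E : Type) [NormedAddCommGroup E] [InnerProductSpace ℝ E]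
    [FiniteDimensional ℝ E] [MeasurableSpace E] [BorelSpace E] : INVStmt' E := by
  constructor
  · rintro U t ⟨⟨C, hU⟩, hp⟩ G hG ι _ b c s θ hs
    have hg := INV_cd hG hs
    have h1 := INV_tr (LinearMap.mk₂ ℝ (fun u v => INV_pm hU hs.le θ u * fderiv ℝ (G s) θ v)
      (fun u v w => by rw [map_add, add_mul]) (fun a u w => by rw [map_smul, smul_eq_mul,
        smul_eq_mul, mul_assoc]) (fun w u v => by rw [map_add, mul_add])
      (fun a w u => by rw [map_smul, smul_eq_mul, smul_eq_mul]; ring)) b c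
    have h2 := INV_tr (LinearMap.mk₂ ℝ (fun u v => fderiv ℝ (fderiv ℝ (G s)) θ u v)
      (fun u v w => by simp) (fun a u w => by simp) (fun w u v => by simp)
      (fun a w u => by simp)) b c
    simp only [LinearMap.mk₂_apply, INV_pm_apply] at h1 h2
    unfold gen
    simp only [INV_DD hg]
    have h3 : ∀ e : E, D e (G s) θ = fderiv ℝ (G s) θ e := fun e => rfl
    simp only [h3]
    rw [h1, h2]
  · rintro U t ⟨⟨C, hU⟩, hp⟩ ι _ _ b c p
    set O : Matrix ι ι ℝ := Matrix.of fun i j => inner ℝ (c i) (b j) with hO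
    have hOO : O * Oᵀ = 1 := by
      ext i j
      simp only [hO, Matrix.mul_apply, Matrix.of_apply, Matrix.transpose_apply]
      have e : ∀ k, (inner ℝ (c i) (b k) : ℝ) * inner ℝ (c j) (b k) =
          inner ℝ (c i) (b k) * inner ℝ (b k) (c j) := fun k => by
        rw [real_inner_comm (b k) (c j)]
      simp only [e]
      rw [b.sum_inner_mul_inner, Matrix.one_apply]
      exact orthonormal_iff_ite.1 c.orthonormal i j
    have hOO' : Oᵀ * O = 1 := by
      rw [← mul_eq_one_comm]
      exact hOO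
    have key : cm c U = O * cm b U * Oᵀ := by
      ext i j
      have e : ∀ k, c k = ∑ l, O k l • b l := fun k => by
        calc c k = ∑ l, (inner ℝ (b l) (c k) : ℝ) • b l := (b.sum_repr' (c k)).symm
          _ = _ := by
            refine Finset.sum_congr rfl fun l _ => ?_
            simp only [hO, Matrix.of_apply]
            rw [real_inner_comm]
      have e1 : cm c U i j = INV_cv hU (∑ l, O i l • b l) (∑ l, O j l • b l) := by
        rw [← e, ← e]
        rfl
      rw [e1]
      simp only [map_sum, LinearMap.sum_apply, map_smul, LinearMap.smul_apply, smul_eq_mul,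
        Finset.mul_sum, Matrix.mul_apply, Matrix.transpose_apply, Finset.sum_mul]
      refine Finset.sum_congr rfl fun l _ => Finset.sum_congr rfl fun k _ => ?_
      simp only [INV_cv_apply, cm, Matrix.of_apply]
      ring
    have h := INV_FP p (cm b U) ⟨O, Oᵀ, hOO, hOO'⟩
    rw [key]
    exact h.symm

end Pool.Agent.H73.KG
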