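import Pool.Agent.H73.KG.Stmts2
import Pool.Agent.H33.KG.BAS

/-!
# Project KG, module CHF: the chain of blocks
-/

set_option autoImplicit false
set_option linter.unusedSectionVars false

open MeasureTheory Set Filter Topology
open scoped ContDiff

namespace Pool.Agent.H73.KG

open Pool.Agent.H84 Pool.Agent.H84.Sym Pool.Agent.H84.Sym.P2x
open Pool.Agent.H19.KL

theorem CHF_num {T A B C : ℝ} (hC : 1 ≤ C) (hA : 0 ≤ A) (hB : 0 ≤ B)
    (h : ∀ l : ℝ, 0 < l → 2 * (l * T) ≤ 5 + C * (l ^ 2 * A + l * B)) :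
    T ≤ (5 + C) * Real.sqrt A + (5 + C) * B := by
  have key : ∀ δ : ℝ, 0 < δ → 2 * T ≤ (5 + C) * Real.sqrt A + C * B + (5 + C) * δ := by
    intro δ hδ
    set a := Real.sqrt A + δ with ha
    have ha0 : 0 < a := by
      have := Real.sqrt_nonneg A
      linarith
    have hA2 : A ≤ a ^ 2 := by
      have h1 := Real.sq_sqrt hA
      have h2 := Real.sqrt_nonneg A
      rw [ha]
      nlinarith
    have h1 := h (1 / a) (by positivity)
    have h2 : (1 / a) ^ 2 * A ≤ 1 := by
      rw [div_pow, one_pow, div_mul_eq_mul_div, one_mul, div_le_one (by positivity)]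
      exact hA2
    have h3 : 2 * (1 / a * T) ≤ 5 + C * (1 + 1 / a * B) := by
      refine h1.trans ?_
      have := mul_le_mul_of_nonneg_left (add_le_add_left h2 (1 / a * B)) (by linarith : 0 ≤ C)
      linarith
    have h4 := mul_le_mul_of_nonneg_right h3 ha0.le
    have e1 : 2 * (1 / a * T) * a = 2 * T := by field_simp
    have e2 : (5 + C * (1 + 1 / a * B)) * a = (5 + C) * a + C * B := by
      field_simp
      ring
    rw [e1, e2, ha] at h4
    linarith
  have h2 : 2 * T ≤ (5 + C) * Real.sqrt A + C * B := by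
    refine le_of_forall_pos_le_add fun ε hε => ?_
    have h5 : 0 < 5 + C := by linarith
    have := key (ε / (5 + C)) (by positivity)
    have e : (5 + C) * (ε / (5 + C)) = ε := by field_simp
    rw [e] at this
    exact this
  have h3 := mul_nonneg (by linarith : 0 ≤ 5 + C) (Real.sqrt_nonneg A)
  have h4 := mul_nonneg (by linarith : 0 ≤ C) hB
  nlinarith

theorem chf_thm (hM : ∀ (E : Type) [NormedAddCommGroup E] [InnerProductSpace ℝ E]
    [FiniteDimensional ℝ E] [MeasurableSpace E] [BorelSpace E], MGLStmt E) (hC : CHIStmt) :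
    CHFStmt := by
  classical
  obtain ⟨C, hC1, hC⟩ := hC
  refine ⟨5 + C, by linarith, ?_⟩
  intro E _ _ _ _ _ U t hU ht h5 r θ d e m β Dd hb
  set R : Finset E := insert θ ((Finset.range r).biUnion fun j => (Finset.range (d j)).image (e j))
    with hR
  set S : Submodule ℝ E := (Submodule.span ℝ (R : Set E))ᗮ with hS
  have hSS : Sᗮ = Submodule.span ℝ (R : Set E) := by
    rw [hS, Submodule.orthogonal_orthogonal]
  have hfin : Module.finrank ℝ Sᗮ ≤ 1 + ∑ j ∈ Finset.range r, d j := by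
    rw [hSS]
    refine (finrank_span_finset_le_card R).trans ?_
    rw [hR]
    refine (Finset.card_insert_le _ _).trans ?_
    rw [add_comm]
    refine Nat.add_le_add_left ?_ 1
    refine Finset.card_biUnion_le.trans (Finset.sum_le_sum fun j _ => ?_)
    exact Finset.card_image_le.trans (by simp)
  have hθS : θ ∈ Sᗮ := by
    rw [hSS]
    exact Submodule.subset_span (by simp [hR])
  have heS : ∀ j < r, ∀ i < d j, e j i ∈ Sᗮ := by
    intro j hj i hi
    rw [hSS]
    refine Submodule.subset_span ?_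
    rw [Finset.mem_coe, hR]
    refine Finset.mem_insert_of_mem (Finset.mem_biUnion.2 ⟨j, Finset.mem_range.2 hj, ?_⟩)
    exact Finset.mem_image_of_mem _ (Finset.mem_range.2 hi)
  obtain ⟨hB, -, -, -, h3, hcov⟩ := hM E U t hU S
  set θ' : Sᗮ := ⟨θ, hθS⟩ with hθ'
  set e' : ℕ → ℕ → Sᗮ := fun j i => if h : j < r ∧ i < d j then ⟨e j i, heS j h.1 i h.2⟩ else 0
    with he'
  have he : ∀ j < r, ∀ i < d j, ((e' j i : Sᗮ) : E) = e j i := by
    intro j hj i hi
    simp only [he']
    rw [dif_pos ⟨hj, hi⟩]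
  have hblk : ∀ l : ℝ, 0 < l → Blk t r θ' d e' (fun j i => l * m j i) (fun j => l * β j) Dd := by
    intro l hl
    refine ⟨hb.unit, ?_, ?_, ?_, ?_, hb.size, hb.big⟩
    · intro j hj i hi
      rw [Submodule.coe_inner, he j hj i hi]
      exact hb.perp j hj i hi
    · intro j hj i hi j' hj' i' hi'
      rw [Submodule.coe_inner, he j hj i hi, he j' hj' i' hi']
      exact hb.orth j hj i hi j' hj' i' hi'
    · intro j hj i hi
      rw [abs_mul, abs_of_pos hl]
      exact mul_le_mul_of_nonneg_left (hb.coef j hj i hi) hl.le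
    · intro j hj
      exact mul_nonneg hl.le (hb.nonneg j hj)
  have hOSI : OSI (mg S U) (fun _ => 0) (fun _ => 0) := by
    refine ⟨contDiff_const, continuous_const, ⟨0, fun x => by simp⟩, fun x X => ?_⟩
    obtain ⟨C', hP⟩ := hB.1.1
    have h1 := hP.hess x X
    have h2 := mul_nonneg hP.pos.le (sq_nonneg ‖X‖)
    have h4 : fderiv ℝ (fun _ : Sᗮ => (0:ℝ)) x = 0 := by simp
    rw [h4]
    simp only [zero_apply, mul_zero]
    linarith
  have ht3 : ∀ j < r, ∀ i < d j, t3 (mg S U) θ' (e' j i) (e' j i) = t3 U θ (e j i) (e j i) := by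
    intro j hj i hi
    rw [(h3 _ _ _).1, he j hj i hi]
  have hcvθ : cv (mg S U) (li θ') (li θ') ≤ 5 := by
    have h1 := hcov 5 h5 θ'
    have h2 : ‖θ'‖ = 1 := hb.unit
    rw [h2] at h1
    linarith
  set T : ℝ := ∑ j ∈ Finset.range r, ∑ i ∈ Finset.range (d j), m j i * t3 U θ (e j i) (e j i)
    with hT
  set A : ℝ := ∑ j ∈ Finset.range r, β j ^ 2 * Dd j with hA
  set B : ℝ := ∑ j ∈ Finset.range r, β j * Real.sqrt (1 + ∑ i ∈ Finset.range j, (d i : ℝ)) / t ^ 2
    with hBd
  have hA0 : 0 ≤ A := Finset.sum_nonneg fun j hj => mul_nonneg (sq_nonneg _)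
    ((Nat.cast_nonneg _).trans (hb.size j (Finset.mem_range.1 hj)))
  have hB0 : 0 ≤ B := Finset.sum_nonneg fun j hj => div_nonneg
    (mul_nonneg (hb.nonneg j (Finset.mem_range.1 hj)) (Real.sqrt_nonneg _)) (sq_nonneg _)
  refine CHF_num hC1 hA0 hB0 fun l hl => ?_
  have h := hC r Sᗮ (mg S U) t hB ht (hcov 5 h5) θ' d e' _ _ Dd (hblk l hl) hfin _ _ hOSI
  have e0 : cv (mg S U) (li θ') (fun _ => 0) = 0 := by
    unfold cv
    simp
  have e1 : ∑ j ∈ Finset.range r, ∑ i ∈ Finset.range (d j), l * m j i *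
      t3 (mg S U) θ' (e' j i) (e' j i) = l * T := by
    rw [hT, Finset.mul_sum]
    refine Finset.sum_congr rfl fun j hj => ?_
    rw [Finset.mul_sum]
    refine Finset.sum_congr rfl fun i hi => ?_
    rw [ht3 j (Finset.mem_range.1 hj) i (Finset.mem_range.1 hi)]
    ring
  have e2 : ∑ j ∈ Finset.range r, ((l * β j) ^ 2 * Dd j +
      l * β j * Real.sqrt (1 + ∑ i ∈ Finset.range j, (d i : ℝ)) / t ^ 2) = l ^ 2 * A + l * B := by
    rw [hA, hBd, Finset.mul_sum, Finset.mul_sum, ← Finset.sum_add_distrib]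
    refine Finset.sum_congr rfl fun j _ => ?_
    ring
  rw [e0, e1, e2] at h
  simp only [integral_zero] at h
  linarith

end Pool.Agent.H73.KG
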