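import Pool.Agent.H73.KG.Stmts2
import Pool.Agent.H33.KG.BAS

/-!
# Project KG, module TSP: splitting of the third moments
-/

set_option autoImplicit false
set_option linter.unusedSectionVars false

open MeasureTheory Set Filter Topology
open scoped ContDiff

namespace Pool.Agent.H73.KG

open Pool.Agent.H84 Pool.Agent.H84.Sym Pool.Agent.H84.Sym.P2x
open Pool.Agent.H19.KL

section

variable {E : Type} [NormedAddCommGroup E] [InnerProductSpace ℝ E]
    [FiniteDimensional ℝ E] [MeasurableSpace E] [BorelSpace E]

theorem TSP_add (V f g h : E → ℝ) (hg : Integrable g (mu V)) (hh : Integrable h (mu V))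
    (hfg : Integrable (fun x => f x * g x) (mu V)) (hfh : Integrable (fun x => f x * h x) (mu V)) :
    cv V f (fun x => g x + h x) = cv V f g + cv V f h := by
  unfold cv
  rw [integral_add hg hh]
  have e : (fun x => f x * (g x + h x)) = fun x => f x * g x + f x * h x := by
    funext x
    ring
  rw [e, integral_add hfg hfh]
  ring

theorem TSP_sum {κ : Type} (s : Finset κ) (V f : E → ℝ) (m : κ → ℝ) (g : κ → E → ℝ)
    (hg : ∀ i, Integrable (g i) (mu V)) (hfg : ∀ i, Integrable (fun x => f x * g i x) (mu V)) :
    cv V f (fun x => ∑ i ∈ s, m i * g i x) = ∑ i ∈ s, m i * cv V f (g i) := by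
  unfold cv
  rw [integral_finsetSum _ fun i _ => (hg i).const_mul (m i)]
  have e : (fun x => f x * ∑ i ∈ s, m i * g i x) = fun x => ∑ i ∈ s, m i * (f x * g i x) := by
    funext x
    rw [Finset.mul_sum]
    exact Finset.sum_congr rfl fun i _ => by ring
  rw [e, integral_finsetSum _ fun i _ => (hfg i).const_mul (m i), Finset.mul_sum,
    ← Finset.sum_sub_distrib]
  refine Finset.sum_congr rfl fun i _ => ?_
  rw [integral_const_mul, integral_const_mul]
  ring

end

theorem tsp_thm (E : Type) [NormedAddCommGroup E] [InnerProductSpace ℝ E]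
    [FiniteDimensional ℝ E] [MeasurableSpace E] [BorelSpace E] (hM : MGLStmt E) : TSPStmt E := by
  intro U t hU S κ _ c m θ
  obtain ⟨hB, hfb, hfib, hint, h3, -⟩ := hM U t hU S
  obtain ⟨⟨⟨C, hP⟩, hpr⟩, -⟩ := hU
  obtain ⟨⟨⟨Cν, hPν⟩, hprν⟩, -⟩ := hB
  have hmul : ∀ (g : E → ℝ) (z : Sᗮ),
      cav S U (fun x => li (θ : E) x * g x) z = li θ z * cav S U g z := by
    intro g z
    rw [← hfib, ← hfib, ← integral_const_mul]
    congr 1
    funext x
    have : li (θ : E) ((x : E) + (z : E)) = li θ z := by
      unfold li
      rw [inner_add_right, Submodule.inner_left_of_mem_orthogonal x.2 θ.2, zero_add]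
      rfl
    rw [this]
  have hone : ∀ z : Sᗮ, cav S U (fun _ => 1) z = 1 := by
    intro z
    obtain ⟨_, hz⟩ := hfb z
    rw [← hfib]
    simp
  have hlin : ∀ z : Sᗮ, cav S U (li (θ : E)) z = li θ z := by
    intro z
    have := hmul (fun _ => 1) z
    rw [hone, mul_one] at this
    simpa using this
  have hA : ∀ g : E → ℝ, GC g → cv U (li (θ : E)) g = cv (mg S U) (li θ) (cav S U g) := by
    intro g hg
    unfold cv
    rw [(hint _ ((BAS_li (θ : E)).mul hg)).1, (hint _ (BAS_li (θ : E))).1, (hint _ hg).1]
    simp only [hmul, hlin]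
  refine ⟨hA, ?_, ?_⟩
  · intro g h hg hh
    exact TSP_add _ _ _ _ (hg.integrable hPν) (hh.integrable hPν)
      (((BAS_li θ).mul hg).integrable hPν) (((BAS_li θ).mul hh).integrable hPν)
  · -- the functions
    set F : κ → E → ℝ := fun i x => (li ((c i : S) : E) x - mn U (c i)) ^ 2 with hF
    have hFG : ∀ i, GC (F i) := fun i => ((BAS_li _).sub (GC.const _)).sq
    set a : κ → Sᗮ → ℝ := fun i z => cv (fb S U z) (li (c i)) (li (c i)) with ha
    set G : κ → Sᗮ → ℝ := fun i z => (cav S U (li ((c i : S) : E)) z - mn U (c i)) ^ 2 with hG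
    have hsplit : ∀ i z, cav S U (F i) z = a i z + G i z := by
      intro i z
      obtain ⟨⟨Cz, hPz⟩, hprz⟩ := hfb z
      have e1 : ∀ x : S, li ((c i : S) : E) ((x : E) + (z : E)) = li (c i) x := by
        intro x
        unfold li
        rw [inner_add_right, Submodule.inner_right_of_mem_orthogonal (c i).2 z.2, add_zero]
        rfl
      rw [← hfib]
      simp only [hG, ha]
      rw [← hfib]
      simp only [hF, e1]
      have i1 : Integrable (li (c i)) (mu (fb S U z)) := (BAS_li _).integrable hPz
      have i2 : Integrable (fun x => li (c i) x * li (c i) x) (mu (fb S U z)) :=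
        ((BAS_li _).mul (BAS_li _)).integrable hPz
      have e2 : (fun x : S => (li (c i) x - mn U (c i)) ^ 2) = fun x =>
          (li (c i) x * li (c i) x - 2 * mn U (c i) * li (c i) x) + mn U (c i) ^ 2 := by
        funext x
        ring
      have i3 : Integrable (fun x => li (c i) x * li (c i) x - 2 * mn U (c i) * li (c i) x)
        (mu (fb S U z)) := i2.sub (i1.const_mul _)
      rw [e2, integral_add i3 (integrable_const _), integral_sub i2 (i1.const_mul _),
        integral_const_mul, integral_const]
      simp only [probReal_univ, smul_eq_mul, one_mul]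
      unfold cv
      ring
    have ha0 : ∀ i z, 0 ≤ a i z := by
      intro i z
      obtain ⟨⟨Cz, hPz⟩, hprz⟩ := hfb z
      exact BAS_nonneg hPz hprz (BAS_li _)
    have hG0 : ∀ i z, 0 ≤ G i z := fun i z => sq_nonneg _
    have hGc : ∀ i, Continuous (G i) := fun i =>
      ((hint _ (BAS_li _)).2.2.sub continuous_const).pow 2
    have hac : ∀ i, Continuous (a i) := by
      intro i
      have e : a i = fun z => cav S U (F i) z - G i z := by
        funext z
        rw [hsplit]
        ring
      rw [e]
      exact (hint _ (hFG i)).2.2.sub (hGc i)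
    have hlc : Continuous (li θ) := (BAS_li θ).1
    have hIF : ∀ i, Integrable (cav S U (F i)) (mu (mg S U)) := fun i => (hint _ (hFG i)).2.1
    have hIlF : ∀ i, Integrable (fun z => li θ z * cav S U (F i) z) (mu (mg S U)) := by
      intro i
      have := (hint _ ((BAS_li (θ : E)).mul (hFG i))).2.1
      refine this.congr (Filter.Eventually.of_forall fun z => ?_)
      exact hmul _ z
    have hIG : ∀ i, Integrable (G i) (mu (mg S U)) := fun i => by
      refine (hIF i).mono' (hGc i).aestronglyMeasurable (Filter.Eventually.of_forall fun z => ?_)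
      rw [Real.norm_of_nonneg (hG0 i z), hsplit]
      linarith [ha0 i z]
    have hIa : ∀ i, Integrable (a i) (mu (mg S U)) := fun i => by
      refine (hIF i).mono' (hac i).aestronglyMeasurable (Filter.Eventually.of_forall fun z => ?_)
      rw [Real.norm_of_nonneg (ha0 i z), hsplit]
      linarith [hG0 i z]
    have hIlG : ∀ i, Integrable (fun z => li θ z * G i z) (mu (mg S U)) := fun i => by
      refine (hIlF i).norm.mono' (hlc.mul (hGc i)).aestronglyMeasurable
        (Filter.Eventually.of_forall fun z => ?_)
      rw [norm_mul, norm_mul]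
      refine mul_le_mul_of_nonneg_left ?_ (norm_nonneg _)
      rw [Real.norm_of_nonneg (hG0 i z), hsplit, Real.norm_of_nonneg
        (add_nonneg (ha0 i z) (hG0 i z))]
      linarith [ha0 i z]
    have hIla : ∀ i, Integrable (fun z => li θ z * a i z) (mu (mg S U)) := fun i => by
      refine (hIlF i).norm.mono' (hlc.mul (hac i)).aestronglyMeasurable
        (Filter.Eventually.of_forall fun z => ?_)
      rw [norm_mul, norm_mul]
      refine mul_le_mul_of_nonneg_left ?_ (norm_nonneg _)
      rw [Real.norm_of_nonneg (ha0 i z), hsplit, Real.norm_of_nonneg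
        (add_nonneg (ha0 i z) (hG0 i z))]
      linarith [hG0 i z]
    have ht3 : ∀ i, t3 U θ (c i) (c i) = cv (mg S U) (li θ) (a i) + cv (mg S U) (li θ) (G i) := by
      intro i
      have e1 : t3 U θ (c i) (c i) = cv U (li (θ : E)) (F i) := by
        unfold t3 cv
        have i1 : Integrable (fun x => li (θ : E) x * F i x) (mu U) :=
          ((BAS_li _).mul (hFG i)).integrable hP
        have i2 : Integrable (F i) (mu U) := (hFG i).integrable hP
        have e : (fun x => (li (θ : E) x - mn U θ) * (li ((c i : S) : E) x - mn U (c i)) *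
            (li ((c i : S) : E) x - mn U (c i))) =
            fun x => li (θ : E) x * F i x - mn U θ * F i x := by
          funext x
          simp only [hF]
          ring
        rw [e, integral_sub i1 (i2.const_mul _), integral_const_mul]
        rfl
      rw [e1, hA _ (hFG i)]
      have e2 : cav S U (F i) = fun z => a i z + G i z := by
        funext z
        exact hsplit i z
      rw [e2]
      exact TSP_add _ _ _ _ (hIa i) (hIG i) (hIla i) (hIlG i)
    have s1 := TSP_sum Finset.univ (mg S U) (li θ) m a hIa hIla
    have s2 := TSP_sum Finset.univ (mg S U) (li θ) m G hIG hIlG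
    rw [s1, s2, ← Finset.sum_add_distrib]
    refine Finset.sum_congr rfl fun i _ => ?_
    rw [ht3]
    ring

end Pool.Agent.H73.KG
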